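import Pool.Agent.H185.XQ.Dil

/-!
# Jointly ergodic measures are extreme among the jointly invariant measures
-/

set_option autoImplicit false

open MeasureTheory Filter Topology Set ProbabilityTheory

namespace Pool.Agent.Q227.Tr

open Pool.Agent.H185.XQ

/-- the semigroup generated by `2` and `3` -/
abbrev G23 : Submonoid ℕ := Submonoid.closure ({2, 3} : Set ℕ)

theorem mem_G23 (i j : ℕ) : 2 ^ i * 3 ^ j ∈ G23 :=
  mul_mem (pow_mem (Submonoid.subset_closure (by simp)) i)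
    (pow_mem (Submonoid.subset_closure (by simp)) j)

variable {ρ : Measure UnitAddCircle}

/-- almost invariant sets are strictly invariant up to null sets -/
theorem strict {E : Set UnitAddCircle} (hE : MeasurableSet E)
    (h : ∀ g ∈ G23, (fun x : UnitAddCircle => g • x) ⁻¹' E =ᵐ[ρ] E) :
    ∃ E' : Set UnitAddCircle, MeasurableSet E' ∧ E' =ᵐ[ρ] E ∧
      ∀ s ∈ ({2, 3} : Set ℕ), (fun x : UnitAddCircle => s • x) ⁻¹' E' = E' := by
  refine ⟨{x | ∃ m : ℕ, ∀ i, m ≤ i → ∀ j, m ≤ j → (2 ^ i * 3 ^ j) • x ∈ E}, ?_, ?_, ?_⟩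
  · have e : {x : UnitAddCircle | ∃ m : ℕ, ∀ i, m ≤ i → ∀ j, m ≤ j → (2 ^ i * 3 ^ j) • x ∈ E} =
        ⋃ m : ℕ, ⋂ i : ℕ, ⋂ j : ℕ, {x : UnitAddCircle | m ≤ i → m ≤ j → (2 ^ i * 3 ^ j) • x ∈ E} := by
      ext x
      simp only [mem_ofPred_eq, mem_iUnion, mem_iInter]
      constructor
      · rintro ⟨m, hm⟩
        exact ⟨m, fun i j hi hj => hm i hi j hj⟩
      · rintro ⟨m, hm⟩
        exact ⟨m, fun i hi j hj => hm i j hi hj⟩
    rw [e]
    refine MeasurableSet.iUnion fun m => MeasurableSet.iInter fun i => MeasurableSet.iInter fun j => ?_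
    by_cases hi : m ≤ i
    · by_cases hj : m ≤ j
      · simp only [hi, hj, forall_true_left]
        exact measurable_smul' _ hE
      · simp [hj]
    · simp [hi]
  · have h1 : ∀ᵐ x ∂ρ, ∀ i j : ℕ, ((2 ^ i * 3 ^ j) • x ∈ E ↔ x ∈ E) := by
      rw [ae_all_iff]
      intro i
      rw [ae_all_iff]
      intro j
      filter_upwards [h _ (mem_G23 i j)] with x hx
      exact iff_of_eq hx
    filter_upwards [h1] with x hx
    apply propext
    constructor
    · rintro ⟨m, hm⟩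
      exact (hx m m).1 (hm m le_rfl m le_rfl)
    · intro hxE
      exact ⟨0, fun i _ j _ => (hx i j).2 hxE⟩
  · rintro s (rfl | rfl)
    · ext x
      simp only [mem_preimage, mem_ofPred_eq]
      constructor
      · rintro ⟨m, hm⟩
        refine ⟨m + 1, fun i hi j hj => ?_⟩
        have := hm (i - 1) (by omega) j (by omega)
        rw [smul_smul] at this
        have e : 2 ^ (i - 1) * 3 ^ j * 2 = 2 ^ i * 3 ^ j := by
          obtain ⟨k, rfl⟩ : ∃ k, i = k + 1 := ⟨i - 1, by omega⟩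
          rw [Nat.add_sub_cancel]; ring
        rwa [e] at this
      · rintro ⟨m, hm⟩
        refine ⟨m, fun i hi j hj => ?_⟩
        rw [smul_smul]
        have e : 2 ^ i * 3 ^ j * 2 = 2 ^ (i + 1) * 3 ^ j := by ring
        rw [e]
        exact hm (i + 1) (by omega) j hj
    · ext x
      simp only [mem_preimage, mem_ofPred_eq]
      constructor
      · rintro ⟨m, hm⟩
        refine ⟨m + 1, fun i hi j hj => ?_⟩
        have := hm i (by omega) (j - 1) (by omega)
        rw [smul_smul] at this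
        have e : 2 ^ i * 3 ^ (j - 1) * 3 = 2 ^ i * 3 ^ j := by
          obtain ⟨k, rfl⟩ : ∃ k, j = k + 1 := ⟨j - 1, by omega⟩
          rw [Nat.add_sub_cancel]; ring
        rwa [e] at this
      · rintro ⟨m, hm⟩
        refine ⟨m, fun i hi j hj => ?_⟩
        rw [smul_smul]
        have e : 2 ^ i * 3 ^ j * 3 = 2 ^ i * 3 ^ (j + 1) := by ring
        rw [e]
        exact hm i hi (j + 1) (by omega)

/-- for an ergodic measure, convex combinations of the images of a character are close to a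
constant -/
theorem exists_P (hρ : ρ ∈ AE {2, 3}) (n : ℤ) {ε : ℝ} (hε : 0 < ε) :
    ∃ P ∈ Cv G23 n, ∫ x, ‖P x‖ ^ 2 ∂ρ < ‖cf ρ n‖ ^ 2 + ε := by
  have := hρ.1
  have hinv := inv_closure hρ.2.2.1
  obtain ⟨h, h1, -, h3⟩ := mean_ergodic (G := G23) hinv n
  obtain ⟨P, hP, hP2⟩ := h3 ε hε
  refine ⟨P, hP, ?_⟩
  have hind : Indep (inferInstance : MeasurableSpace UnitAddCircle) (inva G23 ρ) ρ := by
    rw [Indep_iff]
    intro A E hA hE
    obtain ⟨E', hE', hEE', hs⟩ := strict hE.1 hE.2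
    have h01 : ρ E = 0 ∨ ρ E = 1 := by
      rw [← measure_congr hEE']
      exact hρ.2.2.2 E' hE' hs
    rcases h01 with h0 | h0
    · rw [h0, mul_zero]
      exact measure_mono_null inter_subset_right h0
    · rw [h0, mul_one]
      have hc : ρ Eᶜ = 0 := by
        rw [measure_compl hE.1 (measure_ne_top _ _), h0, measure_univ, tsub_self]
      have h6 : ρ (A \ E) = 0 := measure_mono_null (fun x hx => hx.2) hc
      have h7 := measure_inter_add_sdiff (μ := ρ) A hE.1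
      rw [h6, add_zero] at h7
      exact h7
  have h4 : ρ[fun x => (fourier n x : ℂ) | inva G23 ρ] =ᵐ[ρ] fun _ => cf ρ n :=
    condExp_indep_eq le_rfl (inva_le G23 ρ) (fourier n).continuous.stronglyMeasurable hind
  have h5 : ‖h‖ ^ 2 = ‖cf ρ n‖ ^ 2 := by
    rw [normsq]
    have h6 : ∀ᵐ x ∂ρ, ‖h x‖ ^ 2 = ‖cf ρ n‖ ^ 2 := by
      filter_upwards [h1, h4] with x e1 e2
      rw [e1, e2]
    rw [integral_congr_ae h6]
    simp
  rw [← h5]
  exact hP2

/-- **Ergodic measures are extreme.** -/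
theorem eq_of_le (hρ : ρ ∈ AE {2, 3}) {ν : Measure UnitAddCircle} [IsProbabilityMeasure ν]
    (hν : ∀ s ∈ ({2, 3} : Set ℕ), Inv s ν) {K : ℝ} (hK : 0 ≤ K)
    (hle : ∀ f : C(UnitAddCircle, ℝ), (∀ x, 0 ≤ f x) → ∫ x, f x ∂ν ≤ K * ∫ x, f x ∂ρ) : ν = ρ := by
  have := hρ.1
  refine ext_cf fun n => ?_
  have hG := inv_closure hν
  have hG' := inv_closure hρ.2.2.1
  have key : ∀ ε : ℝ, 0 < ε → ‖cf ν n - cf ρ n‖ ^ 2 ≤ K * ε := by
    intro ε hε
    obtain ⟨P, hP, hP2⟩ := exists_P hρ n hε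
    have e1 : ∫ x, P x ∂ν = cf ν n := integral_Cv hG hP
    have e2 : ∫ x, P x ∂ρ = cf ρ n := integral_Cv hG' hP
    -- the variance of `P`
    have e3 : ∫ x, ‖P x - cf ρ n‖ ^ 2 ∂ρ = ∫ x, ‖P x‖ ^ 2 ∂ρ - ‖cf ρ n‖ ^ 2 := by
      have e4 : ∀ x, ‖P x - cf ρ n‖ ^ 2 =
          ‖P x‖ ^ 2 - 2 * (P x * star (cf ρ n)).re + ‖cf ρ n‖ ^ 2 := by
        intro x
        rw [← Complex.normSq_eq_norm_sq, ← Complex.normSq_eq_norm_sq, ← Complex.normSq_eq_norm_sq,
          Complex.normSq_sub]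
        simp only [Complex.star_def]
        ring
      simp_rw [e4]
      have i1 : Integrable (fun x => ‖P x‖ ^ 2) ρ :=
        (by fun_prop : Continuous fun x => ‖P x‖ ^ 2).integrable_of_hasCompactSupport
          (HasCompactSupport.of_compactSpace _)
      have i2 : Integrable (fun x => 2 * (P x * star (cf ρ n)).re) ρ :=
        (by fun_prop : Continuous fun x => 2 * (P x * star (cf ρ n)).re).integrable_of_hasCompactSupport
          (HasCompactSupport.of_compactSpace _)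
      have j1 : ∫ x, (‖P x‖ ^ 2 - 2 * (P x * star (cf ρ n)).re + ‖cf ρ n‖ ^ 2) ∂ρ =
          ∫ x, (‖P x‖ ^ 2 - 2 * (P x * star (cf ρ n)).re) ∂ρ + ∫ _, ‖cf ρ n‖ ^ 2 ∂ρ :=
        integral_add (f := fun x => ‖P x‖ ^ 2 - 2 * (P x * star (cf ρ n)).re) (i1.sub i2)
          (integrable_const _)
      rw [j1, integral_sub i1 i2, integral_const_mul]
      have i3 : Integrable (fun x => P x * star (cf ρ n)) ρ := (integrable_cont ρ P).mul_const _
      have e5 : ∫ x, (P x * star (cf ρ n)).re ∂ρ = (∫ x, P x * star (cf ρ n) ∂ρ).re :=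
        integral_re i3
      rw [e5, integral_mul_const, e2, integral_const]
      have e6 : (cf ρ n * star (cf ρ n)).re = ‖cf ρ n‖ ^ 2 := by
        rw [Complex.star_def, Complex.mul_conj, Complex.normSq_eq_norm_sq, Complex.ofReal_re]
      rw [e6]
      simp
      ring
    have e7 : ‖cf ν n - cf ρ n‖ ^ 2 ≤ ∫ x, ‖P x - cf ρ n‖ ^ 2 ∂ν := by
      have e8 : cf ν n - cf ρ n = ∫ x, (P x - cf ρ n) ∂ν := by
        rw [integral_sub (integrable_cont ν P) (integrable_const _), e1]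
        simp
      have hc : Continuous fun x => P x - cf ρ n := by fun_prop
      have e9 : ‖∫ x, (P x - cf ρ n) ∂ν‖ ≤ ∫ x, ‖P x - cf ρ n‖ ∂ν := norm_integral_le_integral_norm _
      have i4 : Integrable (fun x => ‖P x - cf ρ n‖) ν :=
        (by fun_prop : Continuous fun x => ‖P x - cf ρ n‖).integrable_of_hasCompactSupport
          (HasCompactSupport.of_compactSpace _)
      have i5 : Integrable (fun x => ‖P x - cf ρ n‖ ^ 2) ν :=
        (by fun_prop : Continuous fun x => ‖P x - cf ρ n‖ ^ 2).integrable_of_hasCompactSupport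
          (HasCompactSupport.of_compactSpace _)
      set A := ∫ x, ‖P x - cf ρ n‖ ∂ν with hA
      have e10 : 0 ≤ ∫ x, (‖P x - cf ρ n‖ - A) ^ 2 ∂ν := integral_nonneg fun x => sq_nonneg _
      have e11 : ∫ x, (‖P x - cf ρ n‖ - A) ^ 2 ∂ν = ∫ x, ‖P x - cf ρ n‖ ^ 2 ∂ν - A ^ 2 := by
        have e12 : ∀ x, (‖P x - cf ρ n‖ - A) ^ 2 =
            ‖P x - cf ρ n‖ ^ 2 - 2 * A * ‖P x - cf ρ n‖ + A ^ 2 := fun x => by ring
        simp_rw [e12]
        have j1 : ∫ x, (‖P x - cf ρ n‖ ^ 2 - 2 * A * ‖P x - cf ρ n‖ + A ^ 2) ∂ν =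
            ∫ x, (‖P x - cf ρ n‖ ^ 2 - 2 * A * ‖P x - cf ρ n‖) ∂ν + ∫ _, A ^ 2 ∂ν :=
          integral_add (f := fun x => ‖P x - cf ρ n‖ ^ 2 - 2 * A * ‖P x - cf ρ n‖)
            (i5.sub (i4.const_mul _)) (integrable_const _)
        rw [j1, integral_sub i5 (i4.const_mul _), integral_const_mul, ← hA]
        simp
        ring
      rw [e8]
      have : 0 ≤ ‖∫ x, (P x - cf ρ n) ∂ν‖ := norm_nonneg _
      nlinarith
    have e13 := hle ⟨fun x => ‖P x - cf ρ n‖ ^ 2, by fun_prop⟩ fun x => by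
      simp only [ContinuousMap.coe_mk]; positivity
    simp only [ContinuousMap.coe_mk] at e13
    rw [e3] at e13
    have : K * (∫ x, ‖P x‖ ^ 2 ∂ρ - ‖cf ρ n‖ ^ 2) ≤ K * ε := by
      refine mul_le_mul_of_nonneg_left ?_ hK
      linarith
    linarith
  have h0 : ‖cf ν n - cf ρ n‖ ^ 2 ≤ 0 := by
    have ht : Tendsto (fun k : ℕ => K * (1 / ((k : ℝ) + 1))) atTop (𝓝 (K * 0)) :=
      tendsto_one_div_add_atTop_nhds_zero_nat.const_mul K
    rw [mul_zero] at ht
    exact ge_of_tendsto ht (Eventually.of_forall fun k => key _ (by positivity))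
  have h1 : ‖cf ν n - cf ρ n‖ = 0 := by nlinarith [norm_nonneg (cf ν n - cf ρ n)]
  exact sub_eq_zero.1 (norm_eq_zero.1 h1)

end Pool.Agent.Q227.Tr
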