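import Pool.Agent.Q227.Tr.Off
import Pool.Agent.Q227.Tr.Erg

/-!
# From ergodic measures to extreme traces of `ℤ² ⋉ ℤ[1/6]`
-/

set_option autoImplicit false

open MeasureTheory Filter Topology Set
open scoped ComplexOrder

namespace Pool.Agent.Q227.Tr

open Pool.Agent.H185.XQ
open Pool.Agent.W763.Tr
open Pool.Agent.TH654.FC

open Classical in
/-- the coefficient of a `×2, ×3` invariant measure at an element of `ℤ[1/6]` -/
noncomputable def co (ρ : Measure UnitAddCircle) (r : ℚ) : ℂ :=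
  if h : Six r then cf ρ h.choose else 0

variable {ρ : Measure UnitAddCircle}

theorem cf_six [IsProbabilityMeasure ρ] (h2 : H185.XQ.Inv 2 ρ) (h3 : H185.XQ.Inv 3 ρ) (n : ℤ) (k : ℕ) :
    cf ρ (n * 6 ^ k) = cf ρ n := by
  induction k with
  | zero => simp
  | succ k ih =>
    have e : n * 6 ^ (k + 1) = n * 6 ^ k * (2 : ℕ) * (3 : ℕ) := by push_cast; ring
    rw [e, inv_iff.1 h3, inv_iff.1 h2, ih]

theorem co_eq [IsProbabilityMeasure ρ] (h2 : H185.XQ.Inv 2 ρ) (h3 : H185.XQ.Inv 3 ρ) {r : ℚ} {n : ℤ}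
    {k : ℕ} (hr : r = n / 6 ^ k) : co ρ r = cf ρ n := by
  have h : Six r := ⟨n, k, hr⟩
  rw [co, dif_pos h]
  obtain ⟨l, hl⟩ := h.choose_spec
  set m := h.choose with hm
  have e : m * 6 ^ k = n * 6 ^ l := by
    have h6 : ((6 : ℚ) ^ k) ≠ 0 := by positivity
    have h6' : ((6 : ℚ) ^ l) ≠ 0 := by positivity
    have e1 : (m : ℚ) / 6 ^ l = n / 6 ^ k := by rw [← hl, hr]
    rw [div_eq_div_iff h6' h6] at e1
    exact_mod_cast e1
  rw [← cf_six h2 h3 m k, e, cf_six h2 h3]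

theorem co_two [IsProbabilityMeasure ρ] (h2 : H185.XQ.Inv 2 ρ) (h3 : H185.XQ.Inv 3 ρ) {r : ℚ}
    (hr : Six r) : co ρ (2 * r) = co ρ r := by
  obtain ⟨n, k, hr⟩ := hr
  rw [co_eq h2 h3 (n := n * (2 : ℕ)) (k := k) (by rw [hr]; push_cast; ring), inv_iff.1 h2,
    co_eq h2 h3 hr]

theorem co_three [IsProbabilityMeasure ρ] (h2 : H185.XQ.Inv 2 ρ) (h3 : H185.XQ.Inv 3 ρ) {r : ℚ}
    (hr : Six r) : co ρ (3 * r) = co ρ r := by
  obtain ⟨n, k, hr⟩ := hr
  rw [co_eq h2 h3 (n := n * (3 : ℕ)) (k := k) (by rw [hr]; push_cast; ring), inv_iff.1 h3,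
    co_eq h2 h3 hr]

theorem co_mul [IsProbabilityMeasure ρ] (h2 : H185.XQ.Inv 2 ρ) (h3 : H185.XQ.Inv 3 ρ) {r : ℚ}
    (hr : Six r) (a b : ℤ) : co ρ (2 ^ a * 3 ^ b * r) = co ρ r := by
  have A : ∀ (a : ℤ) (r : ℚ), Six r → co ρ (2 ^ a * r) = co ρ r := by
    intro a
    induction a using Int.induction_on with
    | zero => intro r _; simp
    | succ i ih =>
      intro r hr
      have h6 : Six (2 * r) := by
        have := (six_two 1).mul hr
        simpa using this
      rw [zpow_add_one₀ (by norm_num), mul_assoc, ih _ h6, co_two h2 h3 hr]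
    | pred i ih =>
      intro r hr
      have h6 : Six (2⁻¹ * r) := by
        have := (six_two (-1)).mul hr
        simpa using this
      rw [zpow_sub_one₀ (by norm_num), mul_assoc, ih _ h6]
      have := co_two h2 h3 h6
      rw [← this]
      congr 1
      ring
  have B : ∀ (b : ℤ) (r : ℚ), Six r → co ρ (3 ^ b * r) = co ρ r := by
    intro b
    induction b using Int.induction_on with
    | zero => intro r _; simp
    | succ i ih =>
      intro r hr
      have h6 : Six (3 * r) := by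
        have := (six_three 1).mul hr
        simpa using this
      rw [zpow_add_one₀ (by norm_num), mul_assoc, ih _ h6, co_three h2 h3 hr]
    | pred i ih =>
      intro r hr
      have h6 : Six (3⁻¹ * r) := by
        have := (six_three (-1)).mul hr
        simpa using this
      rw [zpow_sub_one₀ (by norm_num), mul_assoc, ih _ h6]
      have := co_three h2 h3 h6
      rw [← this]
      congr 1
      ring
  rw [mul_assoc, A a _ ((six_three b).mul hr), B b _ hr]

variable {G : Subgroup (Equiv.Perm ℚ)}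

/-- the linear part -/
def lin (g : G) : ℚ := (g : Equiv.Perm ℚ) 1 - (g : Equiv.Perm ℚ) 0

/-- the trace of a measure -/
noncomputable def th (ρ : Measure UnitAddCircle) (g : G) : ℂ :=
  if lin g = 1 then co ρ ((g : Equiv.Perm ℚ) 0) else 0

/-- the affine form -/
def Form (G : Subgroup (Equiv.Perm ℚ)) : Prop :=
  ∀ g : G, ∃ (a b : ℤ) (r : ℚ), Six r ∧ ∀ x, (g : Equiv.Perm ℚ) x = 2 ^ a * 3 ^ b * x + r

theorem lin_of {g : G} {l r : ℚ} (h : ∀ x, (g : Equiv.Perm ℚ) x = l * x + r) :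
    lin g = l ∧ (g : Equiv.Perm ℚ) 0 = r := by
  constructor
  · rw [lin, h, h]; ring
  · rw [h]; ring

theorem th_tau [IsProbabilityMeasure ρ] (h2 : H185.XQ.Inv 2 ρ) (h3 : H185.XQ.Inv 3 ρ) {g : G} {r : ℚ}
    {n : ℤ} {k : ℕ} (hg : ∀ x, (g : Equiv.Perm ℚ) x = x + r) (hr : r = n / 6 ^ k) :
    th ρ g = cf ρ n := by
  obtain ⟨h4, h5⟩ := lin_of (g := g) (l := 1) (r := r) fun x => by rw [hg, one_mul]
  rw [th, if_pos h4, h5, co_eq h2 h3 hr]

theorem th_off {g : G} (hG : Form G) (hg : ¬ ∃ r : ℚ, ∀ x, (g : Equiv.Perm ℚ) x = x + r) :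
    th ρ g = 0 := by
  obtain ⟨a, b, r, -, hx⟩ := hG g
  obtain ⟨h4, -⟩ := lin_of hx
  rw [th, if_neg]
  rw [h4]
  intro h
  exact hg ⟨r, fun x => by rw [hx, h, one_mul]⟩

theorem th_one [IsProbabilityMeasure ρ] (h2 : H185.XQ.Inv 2 ρ) (h3 : H185.XQ.Inv 3 ρ) :
    th ρ (1 : G) = 1 := by
  rw [th_tau h2 h3 (g := (1 : G)) (r := 0) (n := 0) (k := 0) (fun x => by simp) (by simp), cf_zero]

theorem th_conj [IsProbabilityMeasure ρ] (h2 : H185.XQ.Inv 2 ρ) (h3 : H185.XQ.Inv 3 ρ) (hG : Form G)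
    (g h : G) : th ρ (h * g * h⁻¹) = th ρ g := by
  obtain ⟨a, b, r, hr, hg⟩ := hG g
  obtain ⟨a', b', s, hs, hh⟩ := hG h
  set l : ℚ := 2 ^ a * 3 ^ b with hl
  set m : ℚ := 2 ^ a' * 3 ^ b' with hm
  have hm0 : m ≠ 0 := by rw [hm]; positivity
  have hinv : ∀ x, ((h⁻¹ : G) : Equiv.Perm ℚ) x = (x - s) / m := by
    intro x
    rw [Subgroup.coe_inv, Equiv.Perm.inv_eq_iff_eq, hh]
    field_simp
    ring
  have hc : ∀ x, ((h * g * h⁻¹ : G) : Equiv.Perm ℚ) x = l * x + (m * r + s - l * s) := by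
    intro x
    rw [Subgroup.coe_mul, Subgroup.coe_mul, Equiv.Perm.mul_apply, Equiv.Perm.mul_apply, hinv, hg, hh]
    field_simp
    ring
  obtain ⟨e1, e2⟩ := lin_of hc
  obtain ⟨e3, e4⟩ := lin_of hg
  rw [th, th, e1, e2, e3, e4]
  by_cases h1 : l = 1
  · rw [if_pos h1, if_pos h1, h1]
    have : m * r + s - 1 * s = 2 ^ a' * 3 ^ b' * r := by rw [← hm]; ring
    rw [this, co_mul h2 h3 hr]
  · rw [if_neg h1, if_neg h1]

theorem th_pd [IsProbabilityMeasure ρ] (h2 : H185.XQ.Inv 2 ρ) (h3 : H185.XQ.Inv 3 ρ) (hG : Form G) :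
    PD (th ρ : G → ℂ) := by
  classical
  intro s c
  -- common denominators
  have hch : ∀ g : G, ∃ (n : ℤ) (k : ℕ), (g : Equiv.Perm ℚ) 0 = n / 6 ^ k := by
    intro g
    obtain ⟨a, b, r, ⟨n, k, hr⟩, hg⟩ := hG g
    exact ⟨n, k, by rw [hg, hr]; simp⟩
  choose n0 k0 hn0 using hch
  set K := s.sup k0 with hK
  set n : G → ℤ := fun i => n0 i * 6 ^ (K - k0 i) with hn
  have htr : ∀ i ∈ s, (i : Equiv.Perm ℚ) 0 = n i / 6 ^ K := by
    intro i hi
    rw [hn0 i, hn]
    have hle : k0 i ≤ K := Finset.le_sup hi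
    have e : (6 : ℚ) ^ K = 6 ^ (K - k0 i) * 6 ^ k0 i := by rw [← pow_add]; congr 1; omega
    have h6 : (6 : ℚ) ^ (K - k0 i) ≠ 0 := by positivity
    have h6' : (6 : ℚ) ^ (k0 i) ≠ 0 := by positivity
    push_cast
    rw [e]
    field_simp
  have hval : ∀ i ∈ s, ∀ j ∈ s, th ρ (j⁻¹ * i) = if lin i = lin j then cf ρ (n i - n j) else 0 := by
    intro i hi j hj
    obtain ⟨a, b, r, hr, hg⟩ := hG i
    obtain ⟨a', b', r', hr', hh⟩ := hG j
    set l : ℚ := 2 ^ a * 3 ^ b with hl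
    set m : ℚ := 2 ^ a' * 3 ^ b' with hm
    have hm0 : m ≠ 0 := by rw [hm]; positivity
    have hinv : ∀ x, ((j⁻¹ : G) : Equiv.Perm ℚ) x = (x - r') / m := by
      intro x
      rw [Subgroup.coe_inv, Equiv.Perm.inv_eq_iff_eq, hh]
      field_simp
      ring
    have hc : ∀ x, ((j⁻¹ * i : G) : Equiv.Perm ℚ) x = l / m * x + (r - r') / m := by
      intro x
      rw [Subgroup.coe_mul, Equiv.Perm.mul_apply, hinv, hg]
      field_simp
      ring
    obtain ⟨e1, e2⟩ := lin_of hc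
    obtain ⟨e3, e4⟩ := lin_of hg
    obtain ⟨e5, e6⟩ := lin_of hh
    rw [th, e1, e2, e3, e5]
    by_cases h1 : l = m
    · have h1' : l / m = 1 := by rw [h1, div_self hm0]
      rw [if_pos h1', if_pos h1]
      have h7 : (r - r') / m = 2 ^ (-a') * 3 ^ (-b') * (r - r') := by
        rw [hm, zpow_neg, zpow_neg]
        field_simp
      have h8 : Six (r - r') := by
        rw [sub_eq_add_neg]
        exact hr.add hr'.neg
      rw [h7, co_mul h2 h3 h8]
      refine co_eq h2 h3 (n := n i - n j) (k := K) ?_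
      rw [← e4, ← e6, htr i hi, htr j hj]
      push_cast
      ring
    · rw [if_neg fun h => h1 ((div_eq_one_iff_eq hm0).1 h), if_neg h1]
  have hstep : ∑ i ∈ s, ∑ j ∈ s, star (c j) * c i * th ρ (j⁻¹ * i) =
      ∑ v ∈ s.image lin, ∑ i ∈ s, ∑ j ∈ s,
        star (if lin j = v then c j else 0) * (if lin i = v then c i else 0) * cf ρ (n i - n j) := by
    rw [Finset.sum_comm (s := s.image lin)]
    refine Finset.sum_congr rfl fun i hi => ?_
    rw [Finset.sum_comm (s := s.image lin)]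
    refine Finset.sum_congr rfl fun j hj => ?_
    rw [hval i hi j hj]
    rw [Finset.sum_eq_single (lin i)]
    · by_cases h1 : lin i = lin j
      · rw [if_pos h1, if_pos rfl, if_pos h1.symm]
      · rw [if_neg h1, if_neg (fun h => h1 h.symm)]
        simp
    · intro v _ hv
      rw [if_neg (fun h => hv h.symm) (α := ℂ) (c := lin i = v)]
      simp
    · intro h
      exact absurd (Finset.mem_image_of_mem _ hi) h
  rw [hstep]
  refine Finset.sum_nonneg fun v _ => ?_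
  set w : G → ℂ := fun i => if lin i = v then c i else 0 with hw
  have hsq : ∀ x : UnitAddCircle, ((‖∑ i ∈ s, w i * (fourier (n i) x : ℂ)‖ ^ 2 : ℝ) : ℂ) =
      ∑ i ∈ s, ∑ j ∈ s, star (w j) * w i * (fourier (n i - n j) x : ℂ) := by
    intro x
    rw [← Complex.normSq_eq_norm_sq, ← Complex.mul_conj, map_sum, Finset.sum_mul]
    refine Finset.sum_congr rfl fun i _ => ?_
    rw [Finset.mul_sum]
    refine Finset.sum_congr rfl fun j _ => ?_
    rw [map_mul, ← fourier_neg, sub_eq_add_neg, fourier_add]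
    simp only [Complex.star_def]
    ring
  have hint : ∑ i ∈ s, ∑ j ∈ s, star (w j) * w i * cf ρ (n i - n j) =
      ((∫ x, ‖∑ i ∈ s, w i * (fourier (n i) x : ℂ)‖ ^ 2 ∂ρ : ℝ) : ℂ) := by
    rw [← integral_complex_ofReal]
    simp_rw [hsq]
    rw [integral_finsetSum _ fun i _ => integrable_finsetSum _ fun j _ =>
      (integrable_fourier _).const_mul _]
    refine Finset.sum_congr rfl fun i _ => ?_
    rw [integral_finsetSum _ fun j _ => (integrable_fourier _).const_mul _]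
    refine Finset.sum_congr rfl fun j _ => ?_
    rw [integral_const_mul]
    rfl
  rw [hint]
  have h9 : 0 ≤ ∫ x, ‖∑ i ∈ s, w i * (fourier (n i) x : ℂ)‖ ^ 2 ∂ρ :=
    integral_nonneg fun x => by positivity
  exact_mod_cast h9

/-- the tracial states -/
def Trs (G : Subgroup (Equiv.Perm ℚ)) : Set (G → ℂ) :=
  {ψ : G → ℂ | ψ 1 = 1 ∧ (∀ g h : G, ψ (h * g * h⁻¹) = ψ g) ∧
    ∀ (s : Finset G) (c : G → ℂ), 0 ≤ ∑ i ∈ s, ∑ j ∈ s, star (c j) * c i * ψ (j⁻¹ * i)}

/-- conditionally finite-dimensional -/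
def CFin (φ : G → ℂ) : Prop :=
  FiniteDimensional ℂ (Submodule.span ℂ {F : G → ℂ | ∃ n : G,
    (∃ r : ℚ, ∀ x : ℚ, (n : Equiv.Perm ℚ) x = x + r) ∧ F = fun x => φ (n * x)})

theorem tau_unique {τ τ' : ℤ → G} (h : ∀ (k : ℤ) (x : ℚ), (τ k : Equiv.Perm ℚ) x = x + k)
    (h' : ∀ (k : ℤ) (x : ℚ), (τ' k : Equiv.Perm ℚ) x = x + k) : τ = τ' := by
  funext k
  apply Subtype.ext
  apply Equiv.ext
  intro x
  rw [h, h']

/-- the measures of the two parts -/
theorem part {s2 s3 t : Equiv.Perm ℚ} (hs2 : ∀ x, s2 x = 2 * x) (hs3 : ∀ x, s3 x = 3 * x)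
    (ht : ∀ x, t x = x + 1) (hG : G = Subgroup.closure {s2, s3, t}) (hρ : ρ ∈ AE {2, 3})
    {φ₁ φ₂ : G → ℂ} (h₁ : φ₁ ∈ Trs G) (h₂ : φ₂ ∈ Trs G) {a b : ℝ} (ha : 0 < a) (hb : 0 < b)
    (hφ : a • φ₁ + b • φ₂ = th ρ) : φ₁ = th ρ := by
  have := hρ.1
  have i2 := hρ.2.2.1 2 (by simp)
  have i3 := hρ.2.2.1 3 (by simp)
  obtain ⟨τ, S6, μ₁, D₁⟩ := data_of hs2 hs3 ht hG h₁.1 h₁.2.1 h₁.2.2
  obtain ⟨τ', S6', μ₂, D₂⟩ := data_of hs2 hs3 ht hG h₂.1 h₂.2.1 h₂.2.2
  obtain rfl := tau_unique D₁.hτ D₂.hτ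
  have p1 := D₁.prob
  have p2 := D₂.prob
  have hform : Form G := D₁.hform
  have hcf : ∀ n : ℤ, (a : ℂ) * cf μ₁ n + b * cf μ₂ n = cf ρ n := by
    intro n
    have e1 := congrFun hφ (τ n)
    rw [th_tau i2 i3 (r := n) (n := n) (k := 0) (D₁.hτ n) (by simp)] at e1
    rw [cf, cf, D₁.hμ, D₂.hμ, ← e1]
    simp [Complex.real_smul]
  set a' : NNReal := ⟨a, ha.le⟩ with ha'
  set b' : NNReal := ⟨b, hb.le⟩ with hb'
  have hmeas : (a' : NNReal) • μ₁ + b' • μ₂ = ρ := by
    refine ext_cf fun n => ?_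
    rw [← hcf n, cf, integral_add_measure ((integrable_fourier n).smul_measure_nnreal)
      ((integrable_fourier n).smul_measure_nnreal), integral_smul_nnreal_measure,
      integral_smul_nnreal_measure]
    simp only [ha', hb', cf]
    rfl
  have hμ : μ₁ = ρ := by
    refine eq_of_le hρ (fun s hs => ?_) (K := a⁻¹) (by positivity) fun f hf => ?_
    · rcases hs with rfl | rfl
      · exact D₁.mp2
      · exact D₁.mp3
    · have i1 : ∀ (ν : Measure UnitAddCircle) [IsProbabilityMeasure ν], Integrable (fun x => f x) ν :=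
        fun ν _ => f.continuous.integrable_of_hasCompactSupport (HasCompactSupport.of_compactSpace _)
      have e2 : ∫ x, f x ∂ρ = a * ∫ x, f x ∂μ₁ + b * ∫ x, f x ∂μ₂ := by
        rw [← hmeas, integral_add_measure ((i1 μ₁).smul_measure_nnreal)
          ((i1 μ₂).smul_measure_nnreal), integral_smul_nnreal_measure, integral_smul_nnreal_measure]
        rfl
      have e3 : 0 ≤ ∫ x, f x ∂μ₂ := integral_nonneg hf
      rw [← div_eq_inv_mul, le_div_iff₀ ha, e2]
      have := mul_nonneg hb.le e3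
      linarith
  subst hμ
  funext g
  by_cases hg : ∃ r : ℚ, ∀ x, (g : Equiv.Perm ℚ) x = x + r
  · obtain ⟨r, hg⟩ := hg
    obtain ⟨n, k, hr⟩ := D₁.six hg
    rw [th_tau i2 i3 hg hr, phi_trans D₁.hτ D₁.hcl S6 D₁.hS6 g n k (fun x => by rw [hg, hr]), ← D₁.hμ]
    rfl
  · rw [off D₁ hρ.2.1 g hg, th_off hform hg]

/-- **Ergodic measures give extreme traces of infinite conditional dimension.** -/
theorem th_mem {s2 s3 t : Equiv.Perm ℚ} (hs2 : ∀ x, s2 x = 2 * x) (hs3 : ∀ x, s3 x = 3 * x)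
    (ht : ∀ x, t x = x + 1) (hG : G = Subgroup.closure {s2, s3, t}) (hρ : ρ ∈ AE {2, 3}) :
    (th ρ : G → ℂ) ∈ Set.extremePoints ℝ (Trs G) ∧ ¬ CFin (th ρ : G → ℂ) := by
  have := hρ.1
  have i2 := hρ.2.2.1 2 (by simp)
  have i3 := hρ.2.2.1 3 (by simp)
  have hform : Form G := by
    intro g
    exact form hs2 hs3 ht g (by rw [← hG]; exact g.2)
  have hmem : (th ρ : G → ℂ) ∈ Trs G := ⟨th_one i2 i3, th_conj i2 i3 hform, th_pd i2 i3 hform⟩
  refine ⟨mem_extremePoints_iff_left.2 ⟨hmem, ?_⟩, ?_⟩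
  · rintro φ₁ h₁ φ₂ h₂ ⟨a, b, ha, hb, -, hφ⟩
    exact part hs2 hs3 ht hG hρ h₁ h₂ ha hb hφ
  · intro hfin
    obtain ⟨τ, S6, μ, D⟩ := data_of hs2 hs3 ht hG hmem.1 hmem.2.1 hmem.2.2
    have := D.prob
    have hμ : μ = ρ := by
      refine ext_cf fun n => ?_
      rw [cf, D.hμ, th_tau i2 i3 (r := n) (n := n) (k := 0) (D.hτ n) (by simp)]
    obtain ⟨M, hM1, hM⟩ := exists_kernel D.hτ D.hμ D.h2 hfin
    have h5 : ∫ x, (fourier (M : ℤ) x : ℂ) ∂μ = 1 := by
      rw [D.hμ]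
      have := hM 1
      rwa [mul_one] at this
    have h6 : ∫ x, (1 - (fourier (M : ℤ) x : ℂ).re) ∂μ = 0 := by
      have i1 : Integrable (fun x => (fourier (M : ℤ) x : ℂ).re) μ := (integrable_fourier _).re
      rw [integral_sub (integrable_const _) i1]
      have : ∫ x, (fourier (M : ℤ) x : ℂ).re ∂μ = (∫ x, (fourier (M : ℤ) x : ℂ) ∂μ).re :=
        integral_re (integrable_fourier _)
      rw [this, h5]
      simp
    have hnorm : ∀ x : UnitAddCircle, ‖(fourier (M : ℤ) x : ℂ)‖ = 1 := fun x => by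
      rw [fourier_apply, Circle.norm_coe]
    have h7 : ∀ x : UnitAddCircle, 0 ≤ 1 - (fourier (M : ℤ) x : ℂ).re := by
      intro x
      have := (Complex.re_le_norm (fourier (M : ℤ) x : ℂ)).trans_eq (hnorm x)
      linarith
    have h8 : ∀ᵐ x ∂μ, 1 - (fourier (M : ℤ) x : ℂ).re = 0 :=
      (integral_eq_zero_iff_of_nonneg h7 ((integrable_const _).sub (integrable_fourier _).re)).1 h6
    have h9 : ∀ᵐ x ∂μ, x ∈ {x : UnitAddCircle | (fourier (M : ℤ) x : ℂ) = 1} := by
      filter_upwards [h8] with x hx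
      have h10 : (fourier (M : ℤ) x : ℂ).re = 1 := by linarith
      have h11 := hnorm x
      have h12 : (fourier (M : ℤ) x : ℂ).re ^ 2 + (fourier (M : ℤ) x : ℂ).im ^ 2 = 1 := by
        have := Complex.sq_norm (fourier (M : ℤ) x : ℂ)
        rw [h11, Complex.normSq_apply] at this
        nlinarith
      have h13 : (fourier (M : ℤ) x : ℂ).im = 0 := by
        rw [h10] at h12
        nlinarith
      exact Complex.ext h10 h13
    have h14 : μ {x : UnitAddCircle | (fourier (M : ℤ) x : ℂ) = 1} = 0 := by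
      rw [hμ, ← Set.biUnion_of_singleton {x : UnitAddCircle | (fourier (M : ℤ) x : ℂ) = 1}]
      exact (measure_biUnion_null_iff (finite_root M (by exact_mod_cast (by omega :
        M ≠ 0))).countable).2 fun x _ => hρ.2.1 x
    rw [ae_iff] at h9
    have h15 : μ univ = 0 := by
      rw [← Set.compl_union_self {x : UnitAddCircle | (fourier (M : ℤ) x : ℂ) = 1}]
      exact measure_union_null h9 h14
    rw [measure_univ] at h15
    exact one_ne_zero h15

/-- different measures have different traces -/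
theorem th_inj {s2 s3 t : Equiv.Perm ℚ} (ht : ∀ x, t x = x + 1)
    (hG : G = Subgroup.closure {s2, s3, t}) {ρ ρ' : Measure UnitAddCircle} [IsProbabilityMeasure ρ]
    [IsProbabilityMeasure ρ'] (h2 : H185.XQ.Inv 2 ρ) (h3 : H185.XQ.Inv 3 ρ) (h2' : H185.XQ.Inv 2 ρ')
    (h3' : H185.XQ.Inv 3 ρ') (h : (th ρ : G → ℂ) = th ρ') : ρ = ρ' := by
  have mt : t ∈ G := by rw [hG]; exact Subgroup.subset_closure (by simp)
  have hz : ∀ (n : ℤ) (x : ℚ), (((⟨t, mt⟩ : G) ^ n : G) : Equiv.Perm ℚ) x = x + n := by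
    intro n
    induction n using Int.induction_on with
    | zero => intro x; simp
    | succ i ih =>
      intro x
      rw [zpow_add_one, Subgroup.coe_mul, Equiv.Perm.mul_apply, ih]
      change t x + _ = _
      rw [ht]; push_cast; ring
    | pred i ih =>
      intro x
      rw [zpow_sub_one, Subgroup.coe_mul, Equiv.Perm.mul_apply, ih]
      have : (((⟨t, mt⟩ : G)⁻¹ : G) : Equiv.Perm ℚ) x = x - 1 := by
        rw [Subgroup.coe_inv, Equiv.Perm.inv_eq_iff_eq]
        change _ = t _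
        rw [ht]; ring
      rw [this]; push_cast; ring
  refine ext_cf fun n => ?_
  rw [← th_tau h2 h3 (r := n) (n := n) (k := 0) (hz n) (by simp),
    ← th_tau h2' h3' (r := n) (n := n) (k := 0) (hz n) (by simp), h]

theorem th_trs {s2 s3 t : Equiv.Perm ℚ} (hs2 : ∀ x, s2 x = 2 * x) (hs3 : ∀ x, s3 x = 3 * x)
    (ht : ∀ x, t x = x + 1) (hG : G = Subgroup.closure {s2, s3, t}) [IsProbabilityMeasure ρ]
    (h2 : H185.XQ.Inv 2 ρ) (h3 : H185.XQ.Inv 3 ρ) : (th ρ : G → ℂ) ∈ Trs G := by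
  have hform : Form G := fun g => form hs2 hs3 ht g (by rw [← hG]; exact g.2)
  exact ⟨th_one h2 h3, th_conj h2 h3 hform, th_pd h2 h3 hform⟩

theorem inv_restrict {s : ℕ} {μ : Measure UnitAddCircle} [IsProbabilityMeasure μ] (h : H185.XQ.Inv s μ)
    {E : Set UnitAddCircle} (hE : MeasurableSet E)
    (hEi : (fun x : UnitAddCircle => s • x) ⁻¹' E = E) (c : ENNReal) :
    H185.XQ.Inv s (c • μ.restrict E) := by
  have h1 : MeasurePreserving (fun x : UnitAddCircle => s • x) (μ.restrict E) (μ.restrict E) := by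
    have := MeasurePreserving.restrict_preimage h hE
    rwa [hEi] at this
  exact h1.smul_measure c

/-- **Extreme traces of infinite conditional dimension come from ergodic measures.** -/
theorem ae_of {s2 s3 t : Equiv.Perm ℚ} (hs2 : ∀ x, s2 x = 2 * x) (hs3 : ∀ x, s3 x = 3 * x)
    (ht : ∀ x, t x = x + 1) (hG : G = Subgroup.closure {s2, s3, t}) {φ : G → ℂ}
    (hext : φ ∈ Set.extremePoints ℝ (Trs G)) (hfin : ¬ CFin φ) :
    ∃ μ : Measure UnitAddCircle, μ ∈ AE {2, 3} ∧ φ = th μ := by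
  obtain ⟨h1, hcl, hpd⟩ := hext.1
  obtain ⟨τ, S6, μ, D⟩ := data_of hs2 hs3 ht hG h1 hcl hpd
  have := D.prob
  have hat : ∀ x, μ {x} = 0 := by
    rcases Pool.Agent.TH463.UQ.finite_or_atomless D hext with h | h
    · exact absurd h hfin
    · exact h
  have hform : Form G := D.hform
  have i2 : H185.XQ.Inv 2 μ := D.mp2
  have i3 : H185.XQ.Inv 3 μ := D.mp3
  have hφ : φ = th μ := by
    funext g
    by_cases hg : ∃ r : ℚ, ∀ x, (g : Equiv.Perm ℚ) x = x + r
    · obtain ⟨r, hg⟩ := hg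
      obtain ⟨n, k, hr⟩ := D.six hg
      rw [th_tau i2 i3 hg hr, phi_trans D.hτ D.hcl S6 D.hS6 g n k (fun x => by rw [hg, hr]), ← D.hμ]
      rfl
    · rw [off D hat g hg, th_off hform hg]
  refine ⟨μ, ⟨D.prob, hat, ?_, ?_⟩, hφ⟩
  · rintro s (rfl | rfl)
    · exact i2
    · exact i3
  · intro E hE hEi
    by_contra hcon
    push Not at hcon
    obtain ⟨hE0, hE1⟩ := hcon
    have e2 := hEi 2 (by simp)
    have e3 := hEi 3 (by simp)
    have hEc : μ Eᶜ ≠ 0 := by
      intro h0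
      apply hE1
      have := measure_compl hE.compl (measure_ne_top μ _)
      rw [compl_compl, h0, measure_univ, tsub_zero] at this
      exact this
    set μ₁ : Measure UnitAddCircle := (μ E)⁻¹ • μ.restrict E with hμ₁
    set μ₂ : Measure UnitAddCircle := (μ Eᶜ)⁻¹ • μ.restrict Eᶜ with hμ₂
    have p1 : IsProbabilityMeasure μ₁ := ⟨by
      rw [hμ₁, Measure.smul_apply, Measure.restrict_apply_univ, smul_eq_mul,
        ENNReal.inv_mul_cancel hE0 (measure_ne_top _ _)]⟩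
    have p2 : IsProbabilityMeasure μ₂ := ⟨by
      rw [hμ₂, Measure.smul_apply, Measure.restrict_apply_univ, smul_eq_mul,
        ENNReal.inv_mul_cancel hEc (measure_ne_top _ _)]⟩
    have c2 : (fun x : UnitAddCircle => 2 • x) ⁻¹' Eᶜ = Eᶜ := by rw [preimage_compl, e2]
    have c3 : (fun x : UnitAddCircle => 3 • x) ⁻¹' Eᶜ = Eᶜ := by rw [preimage_compl, e3]
    have j2 := inv_restrict i2 hE e2 (μ E)⁻¹
    have j3 := inv_restrict i3 hE e3 (μ E)⁻¹
    have k2 := inv_restrict i2 hE.compl c2 (μ Eᶜ)⁻¹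
    have k3 := inv_restrict i3 hE.compl c3 (μ Eᶜ)⁻¹
    have m1 := th_trs hs2 hs3 ht hG (ρ := μ₁) j2 j3
    have m2 := th_trs hs2 hs3 ht hG (ρ := μ₂) k2 k3
    set a : ℝ := (μ E).toReal with ha
    set b : ℝ := (μ Eᶜ).toReal with hb
    have ha0 : 0 < a := ENNReal.toReal_pos hE0 (measure_ne_top _ _)
    have hb0 : 0 < b := ENNReal.toReal_pos hEc (measure_ne_top _ _)
    have hab : a + b = 1 := by
      rw [ha, hb, ← ENNReal.toReal_add (measure_ne_top _ _) (measure_ne_top _ _),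
        measure_add_measure_compl hE, measure_univ, ENNReal.toReal_one]
    have hc1 : ∀ n, (a : ℂ) * cf μ₁ n = ∫ x in E, (fourier n x : ℂ) ∂μ := by
      intro n
      rw [cf, hμ₁, integral_smul_measure, ENNReal.toReal_inv, ← ha, Complex.real_smul, ← mul_assoc,
        ← Complex.ofReal_mul, mul_inv_cancel₀ ha0.ne', Complex.ofReal_one, one_mul]
    have hc2 : ∀ n, (b : ℂ) * cf μ₂ n = ∫ x in Eᶜ, (fourier n x : ℂ) ∂μ := by
      intro n
      rw [cf, hμ₂, integral_smul_measure, ENNReal.toReal_inv, ← hb, Complex.real_smul, ← mul_assoc,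
        ← Complex.ofReal_mul, mul_inv_cancel₀ hb0.ne', Complex.ofReal_one, one_mul]
    have hcomb : a • (th μ₁ : G → ℂ) + b • (th μ₂ : G → ℂ) = φ := by
      rw [hφ]
      funext g
      simp only [Pi.add_apply, Pi.smul_apply, Complex.real_smul]
      by_cases hg : ∃ r : ℚ, ∀ x, (g : Equiv.Perm ℚ) x = x + r
      · obtain ⟨r, hg⟩ := hg
        obtain ⟨n, k, hr⟩ := D.six hg
        rw [th_tau j2 j3 hg hr, th_tau k2 k3 hg hr, th_tau i2 i3 hg hr, hc1, hc2, cf]
        exact integral_add_compl hE (integrable_fourier n)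
      · rw [th_off hform hg, th_off hform hg, th_off hform hg]
        simp
    have h7 : (th μ₁ : G → ℂ) = φ := hext.2 m1 m2 ⟨a, b, ha0, hb0, hab, hcomb⟩
    rw [hφ] at h7
    have h8 : μ₁ = μ := th_inj ht hG j2 j3 i2 i3 h7
    apply hEc
    rw [← h8, hμ₁, Measure.smul_apply, Measure.restrict_apply hE.compl]
    simp

/-- Lebesgue measure is ergodic -/
theorem vol_mem : (volume : Measure UnitAddCircle) ∈ AE {2, 3} := by
  refine ⟨inferInstance, fun x => ?_, fun s hs => ?_, fun E hE hEi => ?_⟩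
  · rw [← Metric.closedBall_zero, AddCircle.volume_closedBall]; simp
  · refine inv_iff.2 fun n => ?_
    by_cases hn : n = 0
    · simp [hn]
    · rw [cf_volume hn, cf_volume]
      rcases hs with rfl | rfl
      · simpa using hn
      · simpa using hn
  · have herg := AddCircle.ergodic_nsmul (T := (1 : ℝ)) (n := 2) (by omega)
    have h1 := herg.toPreErgodic.ae_empty_or_univ hE (hEi 2 (by simp))
    rcases h1 with h1 | h1
    · left
      rw [measure_congr h1]; simp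
    · right
      rw [measure_congr h1]; simp

end Pool.Agent.Q227.Tr
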