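import Pool.Agent.TH463.UQ.Trace

/-!
# Traces of `ℤ² ⋉ ℤ[1/6]` whose measure is atomless vanish off the translations
-/

set_option autoImplicit false

open MeasureTheory Filter Topology
open scoped ComplexOrder

namespace Pool.Agent.Q227.Tr

open Pool.Agent.W763.Tr
open Pool.Agent.TH654.FC

/-- Cauchy–Schwarz for positive definite functions -/
theorem cs {G : Type*} [Group G] {φ : G → ℂ} (hpd : PD φ) (h1 : φ 1 = 1) (N : ℕ) (w : ℕ → G)
    {z : ℂ} (hw : ∀ i, φ (w i) = z) :
    (N : ℝ) ^ 2 * ‖z‖ ^ 2 ≤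
      (∑ i ∈ Finset.range N, ∑ j ∈ Finset.range N, φ ((w j)⁻¹ * w i)).re := by
  have h := hpd.family (Finset.range (N + 1)) (fun i => if i = N then 1 else w i)
    (fun i => if i = N then -((N : ℂ) * z) else 1)
  rw [Finset.sum_range_succ] at h
  simp only [Finset.sum_range_succ, if_true] at h
  have e1 : ∀ i ∈ Finset.range N, (if i = N then (1 : G) else w i) = w i := fun i hi =>
    if_neg (Finset.mem_range.1 hi).ne
  have e2 : ∀ i ∈ Finset.range N, (if i = N then -((N : ℂ) * z) else 1) = 1 := fun i hi =>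
    if_neg (Finset.mem_range.1 hi).ne
  have e3 : ∑ i ∈ Finset.range N, (∑ j ∈ Finset.range N,
      star (if j = N then -((N : ℂ) * z) else 1) * (if i = N then -((N : ℂ) * z) else 1) *
        φ ((if j = N then (1 : G) else w j)⁻¹ * (if i = N then (1 : G) else w i)) +
      star (-((N : ℂ) * z)) * (if i = N then -((N : ℂ) * z) else 1) *
        φ ((1 : G)⁻¹ * (if i = N then (1 : G) else w i))) =
      ∑ i ∈ Finset.range N, ∑ j ∈ Finset.range N, φ ((w j)⁻¹ * w i) +
        (N : ℂ) * (star (-((N : ℂ) * z)) * z) := by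
    rw [Finset.sum_add_distrib]
    congr 1
    · refine Finset.sum_congr rfl fun i hi => Finset.sum_congr rfl fun j hj => ?_
      rw [e1 i hi, e1 j hj, e2 i hi, e2 j hj]
      simp
    · rw [Finset.sum_congr rfl fun i hi => by rw [e1 i hi, e2 i hi, inv_one, one_mul, mul_one, hw i]]
      simp
  have e4 : ∑ j ∈ Finset.range N, star (if j = N then -((N : ℂ) * z) else 1) *
        -((N : ℂ) * z) * φ ((if j = N then (1 : G) else w j)⁻¹ * 1) =
      (N : ℂ) * (-((N : ℂ) * z) * star z) := by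
    rw [Finset.sum_congr rfl fun j hj => by
      rw [e1 j hj, e2 j hj, mul_one, hpd.inv h1, hw j, star_one, one_mul]]
    simp
  rw [e3, e4, inv_one, one_mul, h1, mul_one] at h
  have h2 := (Complex.le_def.1 h).1
  set S := ∑ i ∈ Finset.range N, ∑ j ∈ Finset.range N, φ ((w j)⁻¹ * w i) with hS
  have e5 : (S + (N : ℂ) * (star (-((N : ℂ) * z)) * z) + ((N : ℂ) * (-((N : ℂ) * z) * star z) +
      star (-((N : ℂ) * z)) * -((N : ℂ) * z))) = S - (((N : ℝ) ^ 2 * ‖z‖ ^ 2 : ℝ) : ℂ) := by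
    have e6 : ((‖z‖ ^ 2 : ℝ) : ℂ) = z * star z := by
      rw [← Complex.normSq_eq_norm_sq, ← Complex.mul_conj]
      rfl
    rw [Complex.ofReal_mul, e6]
    simp only [star_neg, star_mul', star_natCast]
    push_cast
    ring
  rw [e5, Complex.sub_re, Complex.ofReal_re] at h2
  simp only [Complex.zero_re] at h2
  linarith

section

variable {G : Subgroup (Equiv.Perm ℚ)} {τ : ℤ → G} {φ : G → ℂ} {S6 : G} {μ : Measure UnitAddCircle}

theorem finite_root (m : ℤ) (hm : m ≠ 0) : {x : UnitAddCircle | (fourier m x : ℂ) = 1}.Finite := by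
  have h : {x : UnitAddCircle | (fourier m x : ℂ) = 1} ⊆ {x : UnitAddCircle | m.natAbs • x = 0} := by
    intro x hx
    rw [Set.mem_ofPred_eq, fourier_apply] at hx
    have hx' : AddCircle.toCircle (m • x) = AddCircle.toCircle (0 : UnitAddCircle) := by
      rw [AddCircle.toCircle_zero]
      exact Subtype.ext hx
    have hx2 : m • x = 0 := AddCircle.injective_toCircle one_ne_zero hx'
    rw [Set.mem_ofPred_eq]
    rcases Int.natAbs_eq m with h | h
    · rw [h, natCast_zsmul] at hx2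
      exact hx2
    · rw [h, neg_smul, natCast_zsmul, neg_eq_zero] at hx2
      exact hx2
  exact (AddCircle.finite_torsion (1 : ℝ) (Int.natAbs_pos.2 hm)).subset h

/-- the mean squares of the averages of a character tend to zero for atomless measures -/
theorem avg_sq [IsProbabilityMeasure μ] (hat : ∀ x, μ {x} = 0) {m : ℤ} (hm : m ≠ 0) :
    Tendsto (fun N : ℕ => ∫ x, ‖(N : ℂ)⁻¹ * ∑ n ∈ Finset.range N, (fourier (m * n) x : ℂ)‖ ^ 2 ∂μ)
      atTop (𝓝 0) := by
  have h1 : Tendsto (fun N : ℕ => ∫ x, ‖(N : ℂ)⁻¹ * ∑ n ∈ Finset.range N,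
      (fourier (m * n) x : ℂ)‖ ^ 2 ∂μ) atTop (𝓝 (∫ _, (0 : ℝ) ∂μ)) := by
    refine tendsto_integral_of_dominated_convergence (fun _ => (1 : ℝ)) (fun N => ?_)
      (integrable_const _) (fun N => ?_) ?_
    · have : Continuous (fun x : UnitAddCircle => ‖(N : ℂ)⁻¹ * ∑ n ∈ Finset.range N,
        (fourier (m * n) x : ℂ)‖ ^ 2) := by fun_prop
      exact this.aestronglyMeasurable
    · filter_upwards with x
      rw [Real.norm_of_nonneg (by positivity), norm_mul, norm_inv, Complex.norm_natCast]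
      have h2 : ‖∑ n ∈ Finset.range N, (fourier (m * n) x : ℂ)‖ ≤ N := by
        refine (norm_sum_le _ _).trans ?_
        have : ∀ n ∈ Finset.range N, ‖(fourier (m * n) x : ℂ)‖ ≤ 1 := fun n _ => by
          rw [fourier_apply, Circle.norm_coe]
        refine (Finset.sum_le_sum this).trans ?_
        simp
      rcases Nat.eq_zero_or_pos N with h3 | h3
      · subst h3; simp
      · have h3' : (0 : ℝ) < N := by exact_mod_cast h3
        have h4 : (N : ℝ)⁻¹ * ‖∑ n ∈ Finset.range N, (fourier (m * n) x : ℂ)‖ ≤ 1 := by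
          rw [inv_mul_le_iff₀ h3', mul_one]
          exact h2
        exact pow_le_one₀ (by positivity) h4
    · have h0 : μ {x : UnitAddCircle | (fourier m x : ℂ) = 1} = 0 := by
        rw [← Set.biUnion_of_singleton {x : UnitAddCircle | (fourier m x : ℂ) = 1}]
        exact (measure_biUnion_null_iff (finite_root m hm).countable).2 fun x _ => hat x
      have h2 : ∀ᵐ x ∂μ, (fourier m x : ℂ) ≠ 1 := by
        rw [ae_iff]; simpa using h0
      filter_upwards [h2] with x hx
      set z : ℂ := fourier m x with hz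
      have e : ∀ n : ℕ, (fourier (m * n) x : ℂ) = z ^ n := by
        intro n
        rw [hz, fourier_apply, fourier_apply, ← Circle.coe_pow, ← AddCircle.toCircle_nsmul,
          ← natCast_zsmul, ← mul_smul, mul_comm]
      simp_rw [e]
      have hznorm : ‖z‖ = 1 := by rw [hz, fourier_apply, Circle.norm_coe]
      have h3 : Tendsto (fun N : ℕ => ((2 / ‖z - 1‖) * ((N : ℝ))⁻¹) ^ 2) atTop
          (𝓝 ((2 / ‖z - 1‖ * 0) ^ 2)) :=
        (tendsto_inv_atTop_nhds_zero_nat.const_mul _).pow 2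
      rw [mul_zero, zero_pow two_ne_zero] at h3
      refine squeeze_zero (fun N => by positivity) (fun N => ?_) h3
      refine pow_le_pow_left₀ (norm_nonneg _) ?_ 2
      rw [geom_sum_eq hx, norm_mul, norm_div, norm_inv, Complex.norm_natCast, mul_comm]
      have h4 : ‖z ^ N - 1‖ ≤ 2 := by
        calc ‖z ^ N - 1‖ ≤ ‖z ^ N‖ + ‖(1 : ℂ)‖ := norm_sub_le _ _
          _ = 2 := by rw [norm_pow, hznorm]; norm_num
      gcongr
  rwa [integral_zero] at h1

theorem integrable_fourier [IsProbabilityMeasure μ] (m : ℤ) :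
    Integrable (fun x : UnitAddCircle => (fourier m x : ℂ)) μ :=
  (by fun_prop : Continuous (fun x : UnitAddCircle =>
    (fourier m x : ℂ))).integrable_of_hasCompactSupport (HasCompactSupport.of_compactSpace _)

theorem sum_corr [IsProbabilityMeasure μ] (m : ℤ) (N : ℕ) :
    ∑ i ∈ Finset.range N, ∑ j ∈ Finset.range N, ∫ x, (fourier (m * ((i : ℤ) - j)) x : ℂ) ∂μ =
      ((∫ x, ‖∑ n ∈ Finset.range N, (fourier (m * n) x : ℂ)‖ ^ 2 ∂μ : ℝ) : ℂ) := by
  have hsq : ∀ x : UnitAddCircle, ((‖∑ n ∈ Finset.range N, (fourier (m * n) x : ℂ)‖ ^ 2 : ℝ) : ℂ) =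
      ∑ i ∈ Finset.range N, ∑ j ∈ Finset.range N, (fourier (m * ((i : ℤ) - j)) x : ℂ) := by
    intro x
    rw [← Complex.normSq_eq_norm_sq, ← Complex.mul_conj, map_sum, Finset.sum_mul]
    refine Finset.sum_congr rfl fun i _ => ?_
    rw [Finset.mul_sum]
    refine Finset.sum_congr rfl fun j _ => ?_
    rw [← fourier_neg, ← fourier_add]
    congr 2
    ring
  rw [← integral_complex_ofReal]
  simp_rw [hsq]
  rw [integral_finsetSum _ fun i _ => integrable_finsetSum _ fun j _ => integrable_fourier _]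
  refine Finset.sum_congr rfl fun i _ => ?_
  rw [integral_finsetSum _ fun j _ => integrable_fourier _]

/-- **Traces with atomless measure vanish off the translations.** -/
theorem off (D : Data G τ φ S6 μ) (hat : ∀ x, μ {x} = 0) (g : G)
    (hg : ¬ ∃ r : ℚ, ∀ x, (g : Equiv.Perm ℚ) x = x + r) : φ g = 0 := by
  have := D.prob
  obtain ⟨a, b, r, ⟨n, k, hr⟩, hx⟩ := D.hform g
  set lam : ℚ := 2 ^ a * 3 ^ b with hlam
  have h : lam ≠ 1 := by
    intro h
    exact hg ⟨r, fun x => by rw [hx, h, one_mul]⟩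
  have hd : (1 - lam).num ≠ 0 := by
    rw [Rat.num_ne_zero, sub_ne_zero]
    exact fun e => h e.symm
  have hnum : (1 - lam) * (1 - lam).den = (1 - lam).num := Rat.mul_den_eq_num _
  set v : ℤ := ((1 - lam).den : ℤ) with hv
  set E : ℤ := (1 - lam).num with hE
  have hnum' : (1 - lam) * (v : ℚ) = E := by
    rw [hv]; push_cast; exact hnum
  have hconj : ∀ i : ℕ, φ (τ (E * i) * g) = φ g := by
    intro i
    have e : τ (v * i) * g * (τ (v * i))⁻¹ = τ (E * i) * g := by
      rw [mul_inv_eq_iff_eq_mul]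
      apply Subtype.ext
      apply Equiv.ext
      intro x
      simp only [Subgroup.coe_mul, Equiv.Perm.mul_apply, D.hτ, hx]
      push_cast
      rw [← hnum']; ring
    rw [← e, D.hcl]
  have hcorr : ∀ i j : ℕ, φ ((τ (E * (j : ℤ)) * g)⁻¹ * (τ (E * (i : ℤ)) * g)) =
      ∫ x, (fourier (E * ((i : ℤ) - j)) x : ℂ) ∂μ := by
    intro i j
    have e : (τ (E * (j : ℤ)) * g)⁻¹ * (τ (E * (i : ℤ)) * g) =
        g⁻¹ * τ (E * ((i : ℤ) - j)) * (g⁻¹)⁻¹ := by
      rw [mul_inv_rev, tau_inv D.hτ, inv_inv]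
      have : τ (E * ((i : ℤ) - j)) = τ (-(E * (j : ℤ))) * τ (E * (i : ℤ)) := by
        rw [tau_add D.hτ]; congr 1; ring
      rw [this]
      simp only [mul_assoc]
    rw [e, D.hcl, D.hμ]
  have key : ∀ N : ℕ, 1 ≤ N → ‖φ g‖ ^ 2 ≤
      ∫ x, ‖(N : ℂ)⁻¹ * ∑ n ∈ Finset.range N, (fourier (E * n) x : ℂ)‖ ^ 2 ∂μ := by
    intro N hN
    have hN' : (0 : ℝ) < N := by exact_mod_cast hN
    have h2 := cs D.hpd D.h1 N (fun i => τ (E * (i : ℤ)) * g) (z := φ g) hconj
    simp_rw [hcorr] at h2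
    rw [sum_corr, Complex.ofReal_re] at h2
    have h3 : ∫ x, ‖(N : ℂ)⁻¹ * ∑ n ∈ Finset.range N, (fourier (E * n) x : ℂ)‖ ^ 2 ∂μ =
        ((N : ℝ) ^ 2)⁻¹ * ∫ x, ‖∑ n ∈ Finset.range N, (fourier (E * n) x : ℂ)‖ ^ 2 ∂μ := by
      rw [← integral_const_mul]
      congr 1
      ext x
      rw [norm_mul, norm_inv, Complex.norm_natCast]
      ring
    rw [h3, le_inv_mul_iff₀ (by positivity)]
    exact h2
  have h4 : ‖φ g‖ ^ 2 ≤ 0 := ge_of_tendsto (avg_sq hat hd)
    (by filter_upwards [eventually_ge_atTop 1] with N hN using key N hN)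
  have h5 : ‖φ g‖ = 0 := by nlinarith [norm_nonneg (φ g), sq_nonneg ‖φ g‖]
  exact norm_eq_zero.1 h5

end

end Pool.Agent.Q227.Tr
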